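import Mathlib

open Set Filter Topology MeasureTheory

namespace Pool.Agent.Results.MP_6e0de5_an.IIWithoutI

/-- The Gelfand spectrum `X` of the canonical masa of the UHF algebra which is the limit of the
full matrix algebras of sizes `(k 0 + 1) ⋯ (k (n-1) + 1)`: the product space of the finite discrete
spaces `Fin (k n + 1)`. -/
abbrev X (k : ℕ → ℕ) : Type := ∀ n, Fin (k n + 1)

/-- The two points of the pair agree from the coordinate `N` on. The set `R_N` of these pairs
is the (compact) equivalence relation of the `N`-th matrix algebra with its diagonal. -/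
def Rel (k : ℕ → ℕ) (N : ℕ) (p : X k × X k) : Prop := ∀ i, N ≤ i → p.1 i = p.2 i

/-- The AF equivalence relation (groupoid) `R` of the UHF algebra and its canonical masa: tail
equivalence, the increasing union of the `R_N`. -/
def R (k : ℕ → ℕ) : Type := {p : X k × X k // ∃ N, Rel k N p}

/-- The inclusion of `R_N` in `R`. -/
def incl (k : ℕ → ℕ) (N : ℕ) (p : {p : X k × X k // Rel k N p}) : R k := ⟨p.1, N, p.2⟩

/-- The étale topology of `R`: the inductive limit topology, a set is open when its trace on each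
`R_N` is open for the topology of `R_N` as a subspace of `X × X`. -/
instance topR (k : ℕ → ℕ) : TopologicalSpace (R k) :=
  ⨆ N : ℕ, TopologicalSpace.coinduced (incl k N) inferInstance

/-- `P` is the spectrum of a strongly maximal TAF subalgebra: an open subset of `R` which is a
partial order on each equivalence class (it contains the diagonal, is antisymmetric and
transitive), with `P ∪ P⁻¹ = R`. -/
def IsStronglyMaximal {k : ℕ → ℕ} (P : Set (R k)) : Prop :=
  IsOpen P ∧ (∀ p : R k, p.1.1 = p.1.2 → p ∈ P) ∧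
    (∀ p ∈ P, ∀ q ∈ P, p.1.1 = q.1.2 → p.1.2 = q.1.1 → p.1.1 = p.1.2) ∧
    (∀ p ∈ P, ∀ q ∈ P, ∀ r : R k, p.1.2 = q.1.1 → r.1.1 = p.1.1 → r.1.2 = q.1.2 → r ∈ P) ∧
    ∀ p q : R k, p.1.1 = q.1.2 → p.1.2 = q.1.1 → p ∈ P ∨ q ∈ P

/-- `x ≤ y` when `(x, y) ∈ P`. -/
def le {k : ℕ → ℕ} (P : Set (R k)) (x y : X k) : Prop := ∃ p ∈ P, p.1 = (x, y)

/-- Decreasing subsets of `X`. -/
def IsDecreasing {k : ℕ → ℕ} (P : Set (R k)) (E : Set (X k)) : Prop :=
  ∀ x y, le P x y → y ∈ E → x ∈ E

/-- Increasing subsets of `X`. -/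
def IsIncreasing {k : ℕ → ℕ} (P : Set (R k)) (E : Set (X k)) : Prop :=
  ∀ x y, le P x y → x ∈ E → y ∈ E

/-- The smallest decreasing set containing `C`. -/
def decHull {k : ℕ → ℕ} (P : Set (R k)) (C : Set (X k)) : Set (X k) :=
  ⋂₀ {E | IsDecreasing P E ∧ C ⊆ E}

/-- The smallest increasing set containing `C`. -/
def incHull {k : ℕ → ℕ} (P : Set (R k)) (C : Set (X k)) : Set (X k) :=
  ⋂₀ {E | IsIncreasing P E ∧ C ⊆ E}

/-- The set `E_x`: the intersection of the smallest decreasing sets containing the clopen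
neighbourhoods of `x` (the projections of the masa correspond to the clopen sets; one gets the same
set from any decreasing sequence of clopen sets with intersection `{x}`, since by compactness each
clopen neighbourhood of `x` contains a member of such a sequence). -/
def Eset {k : ℕ → ℕ} (P : Set (R k)) (x : X k) : Set (X k) :=
  {z | ∀ C : Set (X k), IsClopen C → x ∈ C → z ∈ decHull P C}

/-- The set `J_x`, defined in the same way with increasing sets. -/
def Jset {k : ℕ → ℕ} (P : Set (R k)) (x : X k) : Set (X k) :=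
  {z | ∀ C : Set (X k), IsClopen C → x ∈ C → z ∈ incHull P C}

/-- The measure given by the normalized trace: the product of the uniform measures. -/
noncomputable def mu (k : ℕ → ℕ) : Measure (X k) :=
  Measure.infinitePi fun _ => ProbabilityTheory.uniformOn univ

/-- Condition (i). -/
def CondI {k : ℕ → ℕ} (P : Set (R k)) : Prop := ∀ x : X k, mu k (Eset P x ∩ Jset P x) = 0

/-- Condition (ii). -/
def CondII {k : ℕ → ℕ} (P : Set (R k)) : Prop :=
  ∀ x y : X k, le P x y → x ≠ y → mu k (Eset P x) < mu k (Eset P y) ∨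
    ∃ C : Set (X k), IsClopen C ∧ IsIncreasing P C ∧ y ∈ C ∧ x ∉ C

section general

variable {k : ℕ → ℕ}

/-- Tail equivalence. -/
def Tail (x y : X k) : Prop := ∃ N, Rel k N (x, y)

/-- The first `N` coordinates of `u`, then the coordinates of `y`. -/
def splice (N : ℕ) (u y : X k) : X k := fun i => if i < N then u i else y i

theorem splice_lt {N i : ℕ} (h : i < N) (u y : X k) : splice N u y i = u i := by simp [splice, h]

theorem splice_ge {N i : ℕ} (h : N ≤ i) (u y : X k) : splice N u y i = y i := by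
  simp [splice, not_lt.2 h]

theorem rel_splice (N : ℕ) (u y : X k) : Rel k N (splice N u y, y) := fun _ hi =>
  splice_ge hi _ _

theorem splice_self_of_rel {N : ℕ} {x y : X k} (h : Rel k N (x, y)) : splice N x y = x := by
  funext i
  by_cases hi : i < N
  · exact splice_lt hi _ _
  · rw [splice_ge (not_lt.1 hi)]
    exact (h i (not_lt.1 hi)).symm

/-- The cylinder of `x`. -/
def cyl (N : ℕ) (x : X k) : Set (X k) := {y | ∀ i < N, y i = x i}

theorem isClopen_of_determined {N : ℕ} {C : Set (X k)}
    (h : ∀ x ∈ C, ∀ y, (∀ i < N, y i = x i) → y ∈ C) : IsClopen C := by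
  have hcyl : ∀ x : X k, IsOpen (cyl N x) := by
    intro x
    have : cyl N x = ⋂ i ∈ Finset.range N, {y | y i = x i} := by
      ext y
      simp [cyl]
    rw [this]
    refine isOpen_biInter_finset fun i _ => ?_
    exact (continuous_apply (A := fun n => Fin (k n + 1)) i).isOpen_preimage _
      (isOpen_discrete ({x i} : Set (Fin (k i + 1))))
  constructor
  · rw [← isOpen_compl_iff, isOpen_iff_mem_nhds]
    intro x hx
    refine mem_of_superset ((hcyl x).mem_nhds fun i _ => rfl) fun y hy hyC => hx ?_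
    exact h y hyC x fun i hi => (hy i hi).symm
  · rw [isOpen_iff_mem_nhds]
    intro x hx
    exact mem_of_superset ((hcyl x).mem_nhds fun i _ => rfl) fun y hy => h x hx y hy

theorem isClopen_cyl (N : ℕ) (x : X k) : IsClopen (cyl N x) :=
  isClopen_of_determined (N := N) fun _ hy _ hz i hi => (hz i hi).trans (hy i hi)

theorem exists_cyl {O : Set (X k)} (hO : IsOpen O) {o : X k} (ho : o ∈ O) :
    ∃ n, cyl n o ⊆ O := by
  obtain ⟨I, u, h1, h2⟩ := isOpen_pi_iff.1 hO o ho
  refine ⟨I.sup id + 1, fun x hx => h2 fun i hi => ?_⟩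
  have : i < I.sup id + 1 := Nat.lt_succ_of_le (Finset.le_sup (f := id) hi)
  rw [hx i this]
  exact (h1 i hi).2

theorem cyl_anti {m n : ℕ} (h : m ≤ n) (x : X k) : cyl n x ⊆ cyl m x :=
  fun _ hy i hi => hy i (hi.trans_le h)

end general

/-! ### The order -/

section order

variable {k : ℕ → ℕ}

open Classical in
/-- The position of the first zero letter. -/
noncomputable def fz (x : X k) : ℕ∞ := if h : ∃ n, x n = 0 then ((Nat.find h : ℕ) : ℕ∞) else ⊤

theorem fz_eq_coe {x : X k} {n : ℕ} : fz x = n ↔ x n = 0 ∧ ∀ i < n, x i ≠ 0 := by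
  classical
  unfold fz
  split_ifs with h
  · rw [Nat.cast_inj]
    constructor
    · rintro rfl
      exact ⟨Nat.find_spec h, fun i hi => Nat.find_min h hi⟩
    · rintro ⟨h1, h2⟩
      exact (Nat.find_eq_iff h).2 ⟨h1, h2⟩
  · constructor
    · intro h1
      exact absurd h1 (by simp)
    · rintro ⟨h1, -⟩
      exact absurd ⟨n, h1⟩ h

theorem fz_eq_top {x : X k} : fz x = ⊤ ↔ ∀ n, x n ≠ 0 := by
  classical
  unfold fz
  split_ifs with h
  · constructor
    · intro h1
      exact absurd h1 (by simp)
    · intro h1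
      obtain ⟨n, hn⟩ := h
      exact absurd hn (h1 n)
  · constructor
    · intro _ n hn
      exact h ⟨n, hn⟩
    · intro _
      rfl

theorem lt_fz {x : X k} {n : ℕ} : (n : ℕ∞) < fz x ↔ ∀ i ≤ n, x i ≠ 0 := by
  constructor
  · intro h i hi h0
    classical
    have h1 : ∃ n, x n = 0 := ⟨i, h0⟩
    have h2 : fz x = ((Nat.find h1 : ℕ) : ℕ∞) := by simp [fz, h1]
    rw [h2, Nat.cast_lt] at h
    exact absurd (Nat.find_min' h1 h0) (by omega)
  · intro h
    by_contra hle
    push Not at hle
    obtain ⟨m, hm⟩ := ENat.ne_top_iff_exists.1 (ne_top_of_le_ne_top (ENat.natCast_ne_top n) hle)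
    rw [← hm, Nat.cast_le] at hle
    exact h m hle (fz_eq_coe.1 hm.symm).1

theorem fz_congr {x y : X k} (h : ∀ n, (x n = 0 ∧ ∀ i < n, x i ≠ 0) ↔ (y n = 0 ∧ ∀ i < n, y i ≠ 0)) :
    fz x = fz y := by
  rcases eq_or_ne (fz x) ⊤ with hx | hx
  · rcases eq_or_ne (fz y) ⊤ with hy | hy
    · rw [hx, hy]
    · obtain ⟨m, hm⟩ := ENat.ne_top_iff_exists.1 hy
      have := (h m).2 (fz_eq_coe.1 hm.symm)
      exact absurd this.1 (fz_eq_top.1 hx m)
  · obtain ⟨m, hm⟩ := ENat.ne_top_iff_exists.1 hx
    rw [← hm, fz_eq_coe.2 ((h m).1 (fz_eq_coe.1 hm.symm))]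

/-- Lexicographic order. -/
def lexlt (x y : X k) : Prop := ∃ m, (∀ i < m, x i = y i) ∧ x m < y m

/-- The key of a point; the order is the order of the keys. -/
noncomputable def key (x : X k) : ℕ∞ ×ₗ Lex (∀ n, Fin (k n + 1)) := toLex (fz x, toLex x)

theorem key_lt {x y : X k} : key x < key y ↔ fz x < fz y ∨ fz x = fz y ∧ lexlt x y := by
  unfold key
  rw [Prod.Lex.toLex_lt_toLex]
  rfl

theorem key_inj {x y : X k} (h : key x = key y) : x = y := by
  have := congrArg (fun p => ofLex (ofLex p).2) h
  exact this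

theorem le_fz {x : X k} {n : ℕ} : (n : ℕ∞) ≤ fz x ↔ ∀ i < n, x i ≠ 0 := by
  cases n with
  | zero => simp
  | succ m =>
    have h1 : (((m + 1 : ℕ) : ℕ∞) ≤ fz x) ↔ (m : ℕ∞) < fz x := by
      push_cast
      exact ENat.add_one_le_iff (ENat.natCast_ne_top m)
    rw [h1, lt_fz]
    constructor
    · intro h i hi
      exact h i (by omega)
    · intro h i hi
      exact h i (by omega)

theorem fz_le_of_key_le {x y : X k} (h : key x ≤ key y) : fz x ≤ fz y := by
  rcases h.eq_or_lt with h | h
  · rw [key_inj h]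
  · rcases key_lt.1 h with h | h
    · exact h.le
    · exact h.1.le

theorem key_le_splice {N : ℕ} {x y : X k} (h : Rel k N (x, y)) (hle : key x ≤ key y) (t : X k) :
    key (splice N x t) ≤ key (splice N y t) := by
  rcases hle.eq_or_lt with he | hlt
  · rw [key_inj he]
  apply le_of_lt
  rcases key_lt.1 hlt with h1 | ⟨h1, m, hm1, hm2⟩
  · obtain ⟨n, hn⟩ := ENat.ne_top_iff_exists.1 (ne_top_of_lt h1)
    rw [← hn, lt_fz] at h1
    have h2 := fz_eq_coe.1 hn.symm
    have hnN : n < N := by
      by_contra hge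
      have := h n (not_lt.1 hge)
      simp only at this
      exact h1 n le_rfl (by rw [← this]; exact h2.1)
    refine key_lt.2 (Or.inl ?_)
    have h3 : fz (splice N x t) = n := by
      rw [fz_eq_coe, splice_lt hnN]
      refine ⟨h2.1, fun i hi => ?_⟩
      rw [splice_lt (hi.trans hnN)]
      exact h2.2 i hi
    rw [h3, lt_fz]
    intro i hi
    rw [splice_lt (lt_of_le_of_lt hi hnN)]
    exact h1 i hi
  · have hmN : m < N := by
      by_contra hge
      have := h m (not_lt.1 hge)
      simp only at this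
      rw [this] at hm2
      exact lt_irrefl _ hm2
    refine key_lt.2 (Or.inr ⟨fz_congr fun n => ?_, m, fun i hi => ?_, ?_⟩)
    · rcases lt_or_ge n N with hn | hn
      · have e1 : ∀ u : X k, (splice N u t n = 0 ∧ ∀ i < n, splice N u t i ≠ 0) ↔ fz u = n := by
          intro u
          rw [fz_eq_coe, splice_lt hn]
          refine and_congr_right fun _ => forall_congr' fun i => ?_
          constructor
          · intro h4 hi
            have := h4 hi
            rwa [splice_lt (hi.trans hn)] at this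
          · intro h4 hi
            rw [splice_lt (hi.trans hn)]
            exact h4 hi
        rw [e1, e1, h1]
      · have e1 : ∀ u : X k, (splice N u t n = 0 ∧ ∀ i < n, splice N u t i ≠ 0) ↔
            (t n = 0 ∧ (N : ℕ∞) ≤ fz u ∧ ∀ i < n, N ≤ i → t i ≠ 0) := by
          intro u
          rw [splice_ge hn, le_fz]
          refine and_congr_right fun _ => ?_
          constructor
          · intro h4
            refine ⟨fun i hi => ?_, fun i hi hi2 => ?_⟩
            · have := h4 i (by omega)
              rwa [splice_lt hi] at this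
            · have := h4 i hi
              rwa [splice_ge hi2] at this
          · rintro ⟨h4, h5⟩ i hi
            rcases lt_or_ge i N with hi2 | hi2
            · rw [splice_lt hi2]
              exact h4 i hi2
            · rw [splice_ge hi2]
              exact h5 i hi hi2
        rw [e1, e1, h1]
    · rw [splice_lt (hi.trans hmN), splice_lt (hi.trans hmN)]
      exact hm1 i hi
    · rw [splice_lt hmN, splice_lt hmN]
      exact hm2

variable (k) in
/-- The spectrum of the example. -/
def PP : Set (R k) := {p | key p.1.1 ≤ key p.1.2}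

theorem le_iff {x y : X k} : le (PP k) x y ↔ Tail x y ∧ key x ≤ key y := by
  constructor
  · rintro ⟨p, hp, h⟩
    have h1 := p.2
    have h2 : key p.1.1 ≤ key p.1.2 := hp
    rw [h] at h1 h2
    exact ⟨h1, h2⟩
  · rintro ⟨h1, h2⟩
    exact ⟨⟨(x, y), h1⟩, h2, rfl⟩

theorem tail_trans {x y z : X k} (h : Tail x y) (h' : Tail y z) : Tail x z := by
  obtain ⟨N, hN⟩ := h
  obtain ⟨M, hM⟩ := h'
  exact ⟨max N M, fun i hi => (hN i (le_of_max_le_left hi)).trans (hM i (le_of_max_le_right hi))⟩

theorem le_trans' {x y z : X k} (h : le (PP k) x y) (h' : le (PP k) y z) : le (PP k) x z := by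
  rw [le_iff] at *
  exact ⟨tail_trans h.1 h'.1, h.2.trans h'.2⟩

theorem le_refl' (x : X k) : le (PP k) x x := le_iff.2 ⟨⟨0, fun _ _ => rfl⟩, le_rfl⟩

theorem PP_sm : IsStronglyMaximal (PP k) := by
  refine ⟨?_, ?_, ?_, ?_, ?_⟩
  · rw [isOpen_iSup_iff]
    intro N
    rw [isOpen_coinduced, isOpen_iff_mem_nhds]
    rintro ⟨⟨x, y⟩, hxy⟩ hle
    have h1 : key x ≤ key y := hle
    have h2 : IsOpen {q : {p : X k × X k // Rel k N p} | q.1.1 ∈ cyl N x ∧ q.1.2 ∈ cyl N y} := by
      refine IsOpen.inter ?_ ?_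
      · exact (isClopen_cyl N x).isOpen.preimage (continuous_fst.comp continuous_subtype_val)
      · exact (isClopen_cyl N y).isOpen.preimage (continuous_snd.comp continuous_subtype_val)
    refine mem_of_superset (h2.mem_nhds ⟨fun i _ => rfl, fun i _ => rfl⟩) ?_
    rintro ⟨⟨x', y'⟩, hxy'⟩ ⟨hx', hy'⟩
    change key x' ≤ key y'
    have e1 : x' = splice N x y' := by
      funext i
      rcases lt_or_ge i N with hi | hi
      · rw [splice_lt hi]
        exact hx' i hi
      · rw [splice_ge hi]
        exact hxy' i hi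
    have e2 : y' = splice N y y' := by
      funext i
      rcases lt_or_ge i N with hi | hi
      · rw [splice_lt hi]
        exact hy' i hi
      · rw [splice_ge hi]
    rw [e1]
    nth_rewrite 2 [e2]
    exact key_le_splice hxy h1 y'
  · intro p hp
    change key p.1.1 ≤ key p.1.2
    rw [hp]
  · intro p hp q hq h1 h2
    have hp' : key p.1.1 ≤ key p.1.2 := hp
    have hq' : key q.1.1 ≤ key q.1.2 := hq
    rw [← h1, ← h2] at hq'
    exact key_inj (le_antisymm hp' hq')
  · intro p hp q hq r h1 h2 h3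
    have hp' : key p.1.1 ≤ key p.1.2 := hp
    have hq' : key q.1.1 ≤ key q.1.2 := hq
    change key r.1.1 ≤ key r.1.2
    rw [h2, h3]
    rw [← h1] at hq'
    exact hp'.trans hq'
  · intro p q h1 h2
    change key p.1.1 ≤ key p.1.2 ∨ key q.1.1 ≤ key q.1.2
    rw [← h1, ← h2]
    exact le_total _ _

theorem mem_decHull {C : Set (X k)} {z : X k} :
    z ∈ decHull (PP k) C ↔ ∃ y ∈ C, le (PP k) z y := by
  constructor
  · intro h
    exact h {z | ∃ y ∈ C, le (PP k) z y} ⟨fun x y hxy ⟨w, hw, hyw⟩ => ⟨w, hw, le_trans' hxy hyw⟩,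
      fun y hy => ⟨y, hy, le_refl' y⟩⟩
  · rintro ⟨y, hy, hzy⟩ E ⟨hE, hCE⟩
    exact hE z y hzy (hCE hy)

theorem mem_incHull {C : Set (X k)} {z : X k} :
    z ∈ incHull (PP k) C ↔ ∃ y ∈ C, le (PP k) y z := by
  constructor
  · intro h
    exact h {z | ∃ y ∈ C, le (PP k) y z} ⟨fun x y hxy ⟨w, hw, hyw⟩ => ⟨w, hw, le_trans' hyw hxy⟩,
      fun y hy => ⟨y, hy, le_refl' y⟩⟩
  · rintro ⟨y, hy, hzy⟩ E ⟨hE, hCE⟩
    exact hE y z hzy (hCE hy)

/-- Points without zero letters. -/
def V (x : X k) : Prop := ∀ n, x n ≠ 0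

theorem V_splice {N : ℕ} {x z : X k} (hx : V x) (hz : V z) : V (splice N x z) := by
  intro n
  rcases lt_or_ge n N with hn | hn
  · rw [splice_lt hn]
    exact hx n
  · rw [splice_ge hn]
    exact hz n

theorem mem_E {x z : X k} (hx : V x) (hz : V z) (h : lexlt z x) : z ∈ Eset (PP k) x := by
  intro C hC hxC
  obtain ⟨n, hn⟩ := exists_cyl hC.isOpen hxC
  obtain ⟨m, hm1, hm2⟩ := h
  have hmN : m < max n (m + 1) := lt_of_lt_of_le (Nat.lt_succ_self m) (le_max_right _ _)
  refine mem_decHull.2 ⟨splice (max n (m + 1)) x z, hn (cyl_anti (le_max_left _ _) x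
    fun i hi => splice_lt hi _ _), le_iff.2 ⟨⟨max n (m + 1), fun i hi => (splice_ge hi _ _).symm⟩,
      le_of_lt (key_lt.2 (Or.inr ⟨?_, m, fun i hi => ?_, ?_⟩))⟩⟩
  · rw [fz_eq_top.2 hz, fz_eq_top.2 (V_splice hx hz)]
  · rw [splice_lt (hi.trans hmN)]
    exact hm1 i hi
  · rw [splice_lt hmN]
    exact hm2

theorem not_mem_E {x z : X k} (hz : V z) (h : lexlt x z) : z ∉ Eset (PP k) x := by
  intro hzE
  obtain ⟨m, hm1, hm2⟩ := h
  obtain ⟨y, hy, hzy⟩ := mem_decHull.1 (hzE (cyl (m + 1) x) (isClopen_cyl _ _) fun i _ => rfl)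
  have h1 := (le_iff.1 hzy).2
  rcases h1.eq_or_lt with he | hlt
  · rw [key_inj he, hy m (Nat.lt_succ_self m)] at hm2
    exact lt_irrefl _ hm2
  · rcases key_lt.1 hlt with h2 | ⟨-, j, hj1, hj2⟩
    · rw [fz_eq_top.2 hz] at h2
      exact not_top_lt h2
    · rcases lt_trichotomy j m with hj | hj | hj
      · rw [hy j (by omega), hm1 j hj] at hj2
        exact lt_irrefl _ hj2
      · subst hj
        rw [hy j (Nat.lt_succ_self j)] at hj2
        exact lt_asymm hj2 hm2
      · rw [hj1 m hj, hy m (Nat.lt_succ_self m)] at hm2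
        exact lt_irrefl _ hm2

theorem mem_J {x z : X k} (hx : V x) (hz : V z) : z ∈ Jset (PP k) x := by
  intro C hC hxC
  obtain ⟨n, hn⟩ := exists_cyl hC.isOpen hxC
  let y : X k := fun i => if i < n then x i else if i = n then 0 else z i
  have hy1 : ∀ i < n, y i = x i := fun i hi => by simp [y, hi]
  have hy2 : y n = 0 := by simp [y]
  refine mem_incHull.2 ⟨y, hn hy1, le_iff.2 ⟨⟨n + 1, fun i hi => ?_⟩,
    le_of_lt (key_lt.2 (Or.inl ?_))⟩⟩
  · have h1 : ¬ i < n := by omega
    have h2 : i ≠ n := by omega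
    simp [y, h1, h2]
  · have h3 : fz y = n := fz_eq_coe.2 ⟨hy2, fun i hi => by rw [hy1 i hi]; exact hx i⟩
    rw [h3, fz_eq_top.2 hz]
    exact ENat.natCast_lt_top n

theorem E_mono {x y : X k} (h : le (PP k) x y) : Eset (PP k) x ⊆ Eset (PP k) y := by
  intro z hz C hC hyC
  obtain ⟨⟨M, hM⟩, hle⟩ := le_iff.1 h
  obtain ⟨n, hn⟩ := exists_cyl hC.isOpen hyC
  have hrel : Rel k (max n M) (x, y) := fun i hi => hM i (le_of_max_le_right hi)
  obtain ⟨x', hx', hzx'⟩ := mem_decHull.1 (hz (cyl (max n M) x) (isClopen_cyl _ _) fun i _ => rfl)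
  have e1 : x' = splice (max n M) x x' := by
    funext i
    rcases lt_or_ge i (max n M) with hi | hi
    · rw [splice_lt hi]
      exact hx' i hi
    · rw [splice_ge hi]
  have h2 : key x' ≤ key (splice (max n M) y x') := by
    have h3 := key_le_splice hrel hle x'
    rwa [← e1] at h3
  exact mem_decHull.2 ⟨splice (max n M) y x', hn (cyl_anti (le_max_left _ _) y
    fun i hi => splice_lt hi _ _), le_trans' hzx'
      (le_iff.2 ⟨⟨max n M, fun i hi => (splice_ge hi _ _).symm⟩, h2⟩)⟩

end order

/-! ### The measure -/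

section measure

open scoped ENNReal

/-- The sizes of the alphabets are `2 ^ (n + 2) + 1`. -/
def kk (n : ℕ) : ℕ := 2 ^ (n + 2)

/-- The weight of a letter. -/
noncomputable def wt (n : ℕ) : ℝ≥0∞ := ((kk n + 1 : ℕ) : ℝ≥0∞)⁻¹

theorem unif_singleton (n : ℕ) (a : Fin (kk n + 1)) :
    ProbabilityTheory.uniformOn (univ : Set (Fin (kk n + 1))) {a} = wt n := by
  rw [ProbabilityTheory.uniformOn_univ, Measure.count_singleton, Fintype.card_fin, wt, one_div]

theorem mu_cyl (n : ℕ) (w : X kk) : mu kk (cyl n w) = ∏ i ∈ Finset.range n, wt i := by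
  have h : cyl n w = Set.pi (Finset.range n : Set ℕ) (fun i => ({w i} : Set (Fin (kk i + 1)))) := by
    ext z
    simp [cyl]
  rw [h, mu, Measure.infinitePi_pi _ (fun i _ => measurableSet_singleton _)]
  exact Finset.prod_congr rfl fun i _ => unif_singleton i _

theorem mu_cyl_zero {n i : ℕ} (hi : n ≤ i) (w : X kk) :
    mu kk (cyl n w ∩ {z | z i = 0}) = mu kk (cyl n w) * wt i := by
  have h : cyl n w ∩ {z | z i = 0} = Set.pi ((insert i (Finset.range n) : Finset ℕ) : Set ℕ)
      (fun j => if j < n then ({w j} : Set (Fin (kk j + 1))) else {0}) := by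
    ext z
    simp only [cyl, Set.mem_inter_iff, Set.mem_ofPred_eq, Set.mem_pi, Finset.coe_insert,
      Finset.coe_range, Set.mem_insert_iff, Set.mem_Iio]
    constructor
    · rintro ⟨h1, h2⟩ j hj
      rcases hj with rfl | hj
      · simp [not_lt.2 hi, h2]
      · simp [hj, h1 j hj]
    · intro h
      constructor
      · intro j hj
        have := h j (Or.inr hj)
        simpa [hj] using this
      · have := h i (Or.inl rfl)
        simpa [not_lt.2 hi] using this
  rw [h, mu, Measure.infinitePi_pi _ (fun j _ => by split_ifs <;> exact measurableSet_singleton _),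
    Finset.prod_insert (by simp [hi]), ← mu, mu_cyl, mul_comm]
  congr 1
  · refine Finset.prod_congr rfl fun j hj => ?_
    simp only [Finset.mem_range.1 hj, if_true]
    exact unif_singleton j _
  · simp only [not_lt.2 hi, if_false]
    exact unif_singleton i _

theorem wt_pos (n : ℕ) : 0 < wt n := ENNReal.inv_pos.2 (ENNReal.natCast_ne_top _)

theorem wt_ne_top (n : ℕ) : wt n ≠ ⊤ := ENNReal.inv_ne_top.2 (by simp)

theorem wt_le (n i : ℕ) : wt (n + i) ≤ (2⁻¹ : ℝ≥0∞) ^ i * 2⁻¹ ^ 2 := by
  rw [← pow_add, ← ENNReal.inv_pow, wt, ENNReal.inv_le_inv, kk]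
  push_cast
  refine le_trans ?_ (le_self_add (a := (2 : ℝ≥0∞) ^ (n + i + 2)) (b := 1))
  exact pow_le_pow_right₀ (by norm_num) (by omega)

theorem tsum_wt (n : ℕ) : ∑' i, wt (n + i) ≤ 2⁻¹ := by
  refine (ENNReal.tsum_le_tsum (wt_le n)).trans ?_
  rw [ENNReal.tsum_mul_right, ENNReal.tsum_geometric, ENNReal.one_sub_inv_two, inv_inv, pow_two,
    ← mul_assoc, ENNReal.mul_inv_cancel (by norm_num) (by norm_num), one_mul]

/-- The set of the points of the cylinder without zero letters. -/
def SV (n : ℕ) (w : X kk) : Set (X kk) := {z | V z ∧ z ∈ cyl n w}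

theorem SV_meas (n : ℕ) (w : X kk) : MeasurableSet (SV n w) := by
  have h : SV n w = (⋂ i, {z : X kk | z i ≠ 0}) ∩ cyl n w := by
    ext z
    simp [SV, V]
  rw [h]
  refine MeasurableSet.inter (MeasurableSet.iInter fun i => ?_) ?_
  · exact (measurable_pi_apply (X := fun n => Fin (kk n + 1)) i)
      (measurableSet_singleton (0 : Fin (kk i + 1))).compl
  · have h2 : cyl n w = ⋂ i, ⋂ _ : i < n, {z : X kk | z i = w i} := by
      ext z
      simp [cyl]
    rw [h2]
    refine MeasurableSet.iInter fun i => MeasurableSet.iInter fun _ => ?_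
    exact (measurable_pi_apply (X := fun n => Fin (kk n + 1)) i) (measurableSet_singleton (w i))

theorem SV_pos {n : ℕ} {w : X kk} (hw : ∀ i < n, w i ≠ 0) : 0 < mu kk (SV n w) := by
  have h1 : cyl n w ⊆ SV n w ∪ ⋃ i, (cyl n w ∩ {z | z (n + i) = 0}) := by
    intro z hz
    by_cases hV : V z
    · exact Or.inl ⟨hV, hz⟩
    · right
      simp only [V, not_forall, not_not] at hV
      obtain ⟨j, hj⟩ := hV
      have hjn : n ≤ j := by
        by_contra hlt
        have := hz j (not_le.1 hlt)
        exact hw j (not_le.1 hlt) (by rw [← this, hj])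
      refine Set.mem_iUnion.2 ⟨j - n, hz, ?_⟩
      change z (n + (j - n)) = 0
      rw [Nat.add_sub_cancel' hjn]
      exact hj
  have h2 : mu kk (cyl n w) ≤ mu kk (SV n w) + mu kk (cyl n w) * 2⁻¹ := by
    calc mu kk (cyl n w) ≤ mu kk (SV n w) + mu kk (⋃ i, (cyl n w ∩ {z | z (n + i) = 0})) :=
          (measure_mono h1).trans (measure_union_le _ _)
      _ ≤ mu kk (SV n w) + ∑' i, mu kk (cyl n w ∩ {z | z (n + i) = 0}) := by
          gcongr
          exact measure_iUnion_le _
      _ = mu kk (SV n w) + mu kk (cyl n w) * ∑' i, wt (n + i) := by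
          rw [← ENNReal.tsum_mul_left]
          congr 2
          funext i
          exact mu_cyl_zero (Nat.le_add_right n i) w
      _ ≤ _ := by
          gcongr
          exact tsum_wt n
  have h3 : mu kk (cyl n w) ≠ 0 := by
    rw [mu_cyl]
    exact Finset.prod_ne_zero_iff.2 fun i _ => (wt_pos i).ne'
  have h4 : mu kk (cyl n w) ≠ ⊤ := by
    rw [mu_cyl]
    exact ENNReal.prod_ne_top fun i _ => wt_ne_top i
  rw [pos_iff_ne_zero]
  intro h0
  rw [h0, zero_add, ← div_eq_mul_inv] at h2
  exact absurd (ENNReal.half_lt_self h3 h4) (not_lt.2 h2)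

end measure

theorem key_trans_inc {x y : X kk} (h : le (PP kk) x y) : fz x ≤ fz y :=
  fz_le_of_key_le (le_iff.1 h).2

theorem condII : CondII (PP kk) := by
  intro x y hle hne
  have hkey : key x < key y := lt_of_le_of_ne (le_iff.1 hle).2 fun h => hne (key_inj h)
  rcases key_lt.1 hkey with h1 | ⟨h1, m, hm1, hm2⟩
  · -- different levels
    right
    obtain ⟨n, hn⟩ := ENat.ne_top_iff_exists.1 (ne_top_of_lt h1)
    refine ⟨{z | (n : ℕ∞) < fz z}, isClopen_of_determined (N := n + 1) ?_, ?_, ?_, ?_⟩
    · intro z hz w hw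
      have hz' : (n : ℕ∞) < fz z := hz
      change (n : ℕ∞) < fz w
      rw [lt_fz] at *
      intro i hi
      rw [hw i (by omega)]
      exact hz' i hi
    · intro z w hzw hz
      exact lt_of_lt_of_le hz (key_trans_inc hzw)
    · change (n : ℕ∞) < fz y
      rwa [hn]
    · intro hx
      have hx' : (n : ℕ∞) < fz x := hx
      rw [hn] at hx'
      exact lt_irrefl _ hx'
  rcases eq_or_ne (fz x) ⊤ with htop | hfin
  · -- both in V
    left
    have hxV : V x := fz_eq_top.1 htop
    have hyV : V y := fz_eq_top.1 (h1 ▸ htop)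
    obtain ⟨⟨M, hM⟩, -⟩ := le_iff.1 hle
    let N := max M (m + 1)
    have hmN : m < N := lt_of_lt_of_le (Nat.lt_succ_self m) (le_max_right _ _)
    have hxyN : x N = y N := hM N (le_max_left _ _)
    suffices H : ∃ w : X kk, (∀ i < N + 1, w i ≠ 0) ∧ (∀ z ∈ cyl (N + 1) w, lexlt x z ∧ lexlt z y) by
      obtain ⟨w, hw1, hw2⟩ := H
      have e1 : SV (N + 1) w ⊆ Eset (PP kk) y := fun z hz => mem_E hyV hz.1 (hw2 z hz.2).2
      have e2 : Disjoint (Eset (PP kk) x) (SV (N + 1) w) := by
        rw [Set.disjoint_left]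
        intro z hz hzS
        exact not_mem_E hzS.1 (hw2 z hzS.2).1 hz
      have e3 : mu kk (Eset (PP kk) x) + mu kk (SV (N + 1) w) ≤ mu kk (Eset (PP kk) y) := by
        rw [← measure_union e2 (SV_meas _ _)]
        exact measure_mono (Set.union_subset (E_mono hle) e1)
      have e4 : mu kk (Eset (PP kk) x) ≠ ⊤ := by
        rw [mu]
        exact measure_ne_top _ _
      exact lt_of_lt_of_le (ENNReal.lt_add_right e4 (SV_pos hw1).ne') e3
    have hlt : ∀ z : X kk, (∀ i < N, z i = x i) → lexlt z y := fun z hz =>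
      ⟨m, fun i hi => (hz i (hi.trans hmN)).trans (hm1 i hi), by rw [hz m hmN]; exact hm2⟩
    have hgt : ∀ z : X kk, (∀ i < N, z i = y i) → lexlt x z := fun z hz =>
      ⟨m, fun i hi => (hm1 i hi).trans (hz i (hi.trans hmN)).symm, by rw [hz m hmN]; exact hm2⟩
    by_cases hlast : x N = Fin.last (kk N)
    · -- decrease the letter of y
      have h2 : 2 ≤ kk N := by
        unfold kk
        calc 2 = 2 ^ 1 := rfl
          _ ≤ 2 ^ (N + 2) := Nat.pow_le_pow_right (by norm_num) (by omega)
      let a : Fin (kk N + 1) := ⟨kk N - 1, by omega⟩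
      have ha0 : a ≠ 0 := by
        intro h
        have := congrArg Fin.val h
        simp only [a, Fin.val_zero] at this
        omega
      have halt : a < y N := by
        rw [← hxyN, hlast, Fin.lt_def]
        simp only [a, Fin.val_last]
        omega
      refine ⟨Function.update y N a, fun i hi => ?_, fun z hz => ?_⟩
      · rcases eq_or_ne i N with rfl | hiN
        · rw [Function.update_self]
          exact ha0
        · rw [Function.update_of_ne hiN]
          exact hyV i
      · have hz1 : ∀ i < N, z i = y i := fun i hi => by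
          rw [hz i (by omega), Function.update_of_ne (by omega)]
        have hz2 : z N = a := by rw [hz N (Nat.lt_succ_self N), Function.update_self]
        exact ⟨hgt z hz1, N, hz1, by rw [hz2]; exact halt⟩
    · -- increase the letter of x
      have h2 : (x N : ℕ) < kk N := by
        have h3 := (x N).2
        have h4 : (x N : ℕ) ≠ kk N := fun h => hlast (Fin.ext h)
        omega
      let a : Fin (kk N + 1) := ⟨x N + 1, by omega⟩
      have ha0 : a ≠ 0 := by
        intro h
        have := congrArg Fin.val h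
        simp only [a, Fin.val_zero] at this
        omega
      have hagt : x N < a := by
        rw [Fin.lt_def]
        simp only [a]
        omega
      refine ⟨Function.update x N a, fun i hi => ?_, fun z hz => ?_⟩
      · rcases eq_or_ne i N with rfl | hiN
        · rw [Function.update_self]
          exact ha0
        · rw [Function.update_of_ne hiN]
          exact hxV i
      · have hz1 : ∀ i < N, z i = x i := fun i hi => by
          rw [hz i (by omega), Function.update_of_ne (by omega)]
        have hz2 : z N = a := by rw [hz N (Nat.lt_succ_self N), Function.update_self]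
        exact ⟨⟨N, fun i hi => (hz1 i hi).symm, by rw [hz2]; exact hagt⟩, hlt z hz1⟩
  · -- same finite level
    right
    obtain ⟨n, hn⟩ := ENat.ne_top_iff_exists.1 hfin
    let M := max m n + 1
    have hmM : m < M := Nat.lt_succ_of_le (le_max_left _ _)
    have hnM : n < M := Nat.lt_succ_of_le (le_max_right _ _)
    refine ⟨{z | (n : ℕ∞) < fz z ∨ (fz z = n ∧ ¬ ∃ j < M, (∀ i < j, z i = y i) ∧ z j < y j)},
      isClopen_of_determined (N := M) ?_, ?_, ?_, ?_⟩
    · intro z hz w hw
      rcases hz with hz | ⟨hz1, hz2⟩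
      · left
        rw [lt_fz] at *
        intro i hi
        rw [hw i (lt_of_le_of_lt hi hnM)]
        exact hz i hi
      · right
        refine ⟨?_, ?_⟩
        · rw [fz_eq_coe] at *
          refine ⟨by rw [hw n hnM]; exact hz1.1, fun i hi => ?_⟩
          rw [hw i (hi.trans hnM)]
          exact hz1.2 i hi
        · rintro ⟨j, hj, hj1, hj2⟩
          refine hz2 ⟨j, hj, fun i hi => ?_, ?_⟩
          · rw [← hw i (hi.trans hj)]
            exact hj1 i hi
          · rw [← hw j hj]
            exact hj2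
    · intro z w hzw hz
      have hkk := (le_iff.1 hzw).2
      rcases hz with hz | ⟨hz1, hz2⟩
      · exact Or.inl (lt_of_lt_of_le hz (fz_le_of_key_le hkk))
      · have h3 := fz_le_of_key_le hkk
        rw [hz1] at h3
        rcases h3.eq_or_lt with h3 | h3
        · right
          refine ⟨h3.symm, ?_⟩
          rintro ⟨j, hj, hj1, hj2⟩
          rcases hkk.eq_or_lt with he | hlt
          · rw [← key_inj he] at hj1 hj2
            exact hz2 ⟨j, hj, hj1, hj2⟩
          · rcases key_lt.1 hlt with h4 | ⟨-, l, hl1, hl2⟩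
            · rw [hz1, ← h3] at h4
              exact lt_irrefl _ h4
            · rcases lt_trichotomy l j with h5 | h5 | h5
              · refine hz2 ⟨l, h5.trans hj, fun i hi => ?_, ?_⟩
                · rw [hl1 i hi]
                  exact hj1 i (hi.trans h5)
                · rw [← hj1 l h5]
                  exact hl2
              · subst h5
                refine hz2 ⟨l, hj, fun i hi => ?_, hl2.trans hj2⟩
                rw [hl1 i hi]
                exact hj1 i hi
              · refine hz2 ⟨j, hj, fun i hi => ?_, ?_⟩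
                · rw [hl1 i (hi.trans h5)]
                  exact hj1 i hi
                · rw [hl1 j h5]
                  exact hj2
        · exact Or.inl h3
    · right
      refine ⟨by rw [← h1, hn], ?_⟩
      rintro ⟨j, -, -, hj⟩
      exact lt_irrefl _ hj
    · rintro (hx | ⟨-, hx⟩)
      · rw [hn] at hx
        exact lt_irrefl _ hx
      · exact hx ⟨m, hmM, hm1, hm2⟩

theorem not_condI : ¬ CondI (PP kk) := by
  intro h
  have h4 : ∀ n, 4 ≤ kk n := fun n => by
    unfold kk
    calc 4 = 2 ^ 2 := rfl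
      _ ≤ 2 ^ (n + 2) := Nat.pow_le_pow_right (by norm_num) (by omega)
  let x : X kk := fun n => if n = 0 then ⟨2, by have := h4 n; omega⟩ else ⟨1, by have := h4 n; omega⟩
  let w : X kk := fun n => ⟨1, by have := h4 n; omega⟩
  have hxV : V x := by
    intro n hn
    have := congrArg Fin.val hn
    by_cases h0 : n = 0
    · simp [x, h0] at this
    · simp [x, h0] at this
  have hwV : V w := by
    intro n hn
    have := congrArg Fin.val hn
    simp [w] at this
  have hsub : SV 1 w ⊆ Eset (PP kk) x ∩ Jset (PP kk) x := by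
    intro z hz
    refine ⟨mem_E hxV hz.1 ⟨0, by simp, ?_⟩, mem_J hxV hz.1⟩
    rw [hz.2 0 one_pos, Fin.lt_def]
    simp [w, x]
  have h1 := measure_mono (μ := mu kk) hsub
  rw [h x] at h1
  exact absurd (SV_pos (n := 1) (w := w) fun i _ => hwV i) (not_lt.2 h1)

/-- There is a strongly maximal TAF subalgebra of a UHF algebra (with multiplicities `k n + 1`,
infinitely many of them at least `2`) which satisfies (ii) but not (i). -/
theorem result : ∃ (k : ℕ → ℕ) (P : Set (R k)), (∀ N, ∃ n, N ≤ n ∧ 2 ≤ k n + 1) ∧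
    IsStronglyMaximal P ∧ CondII P ∧ ¬ CondI P := by
  refine ⟨kk, PP kk, fun N => ⟨N, le_rfl, ?_⟩, PP_sm, condII, not_condI⟩
  have : 1 ≤ kk N := Nat.one_le_two_pow
  omega

end Pool.Agent.Results.MP_6e0de5_an.IIWithoutI
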